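import Mathlib
import Pool.Graph.R_seed8.Helper532.SeparatedConfig

set_option autoImplicit false

namespace Pool.Agent.Results.MP_b71966_co.BehrendType

/-- `p` is a separated configuration of `n` points of the plane in general position: no three
points on a line, no four points on a circle, all distances at least `1`, and any two different
distances differ by at least `1`. -/
structure GenSep {n : ℕ} (p : Fin n → EuclideanSpace ℝ (Fin 2)) : Prop where
  noncollinear : ∀ i j k : Fin n, i ≠ j → i ≠ k → j ≠ k →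
    ¬ Collinear ℝ ({p i, p j, p k} : Set (EuclideanSpace ℝ (Fin 2)))
  nonconcyclic : ∀ i j k l : Fin n, i ≠ j → i ≠ k → i ≠ l → j ≠ k → j ≠ l → k ≠ l →
    ¬ EuclideanGeometry.Cospherical ({p i, p j, p k, p l} : Set (EuclideanSpace ℝ (Fin 2)))
  one_le : ∀ i j : Fin n, i ≠ j → 1 ≤ dist (p i) (p j)
  gap : ∀ i j k l : Fin n, i ≠ j → k ≠ l → dist (p i) (p j) ≠ dist (p k) (p l) →
    1 ≤ |dist (p i) (p j) - dist (p k) (p l)|

/-- many lattice points of `[0,m)^(D+3)`, `m = (D+3)k`, on one sphere -/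
lemma exists_sphere (D k : ℕ) (hk : 0 < k) : ∃ r : ℕ, ((D + 3) * k) ^ D * k ≤
    (Finset.univ.filter (fun a : Fin (D + 3) → Fin ((D + 3) * k) => ∑ i, (a i : ℕ) ^ 2 = r)).card := by
  classical
  have hm : 0 < (D + 3) * k := by positivity
  have := Finset.exists_le_card_fiber_of_mul_le_card_of_maps_to
    (s := (Finset.univ : Finset (Fin (D + 3) → Fin ((D + 3) * k))))
    (t := Finset.range ((D + 3) * ((D + 3) * k) ^ 2))
    (f := fun a : Fin (D + 3) → Fin ((D + 3) * k) => ∑ i, (a i : ℕ) ^ 2)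
    (n := ((D + 3) * k) ^ D * k) ?_ ?_ ?_
  · obtain ⟨r, _, hr⟩ := this
    exact ⟨r, hr⟩
  · intro a _
    rw [Finset.mem_range]
    have h1 : ∑ i, (a i : ℕ) ^ 2 < ∑ _i : Fin (D + 3), ((D + 3) * k) ^ 2 := by
      apply Finset.sum_lt_sum_of_nonempty Finset.univ_nonempty
      intro i _
      exact Nat.pow_lt_pow_left (a i).2 two_ne_zero
    simpa using h1
  · rw [Finset.nonempty_range_iff]
    positivity
  · rw [Finset.card_range, Finset.card_univ, Fintype.card_fun, Fintype.card_fin, Fintype.card_fin]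
    apply le_of_eq
    ring

/-- the choice of the dimension `D + 3` and of the side `(D+3)k` -/
lemma numeric (n : ℕ) (hn : 2 ≤ n) : ∃ D k : ℕ, 0 < k ∧ n ≤ ((D + 3) * k) ^ D * k ∧
    (4 * (((D + 3) * k : ℕ) : ℝ)) ^ (D + 3) ≤ n * Real.exp (30 * √(Real.log n)) := by
  classical
  have hn2 : (2 : ℝ) ≤ n := by exact_mod_cast hn
  have hn0 : (0 : ℝ) < n := by linarith
  have hlog : 0.6931471803 < Real.log n :=
    lt_of_lt_of_le Real.log_two_gt_d9 (Real.log_le_log (by norm_num) hn2)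
  set x := √(Real.log n) with hx
  have hx1 : 0.82 ≤ x := by
    apply Real.le_sqrt_of_sq_le
    norm_num at hlog ⊢
    linarith
  have hxx : x ^ 2 = Real.log n := Real.sq_sqrt (by linarith)
  set D := ⌈x⌉₊ with hD
  have hD1 : x ≤ D := Nat.le_ceil x
  have hD2 : (D : ℝ) < x + 1 := Nat.ceil_lt_add_one (by linarith)
  have hD3 : (1 : ℝ) ≤ D := by
    have : 0 < D := Nat.ceil_pos.2 (by linarith)
    exact_mod_cast this
  have hex : ∃ k : ℕ, n ≤ ((D + 3) * k) ^ D * k := by
    refine ⟨n, ?_⟩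
    have : 0 < ((D + 3) * n) ^ D := by positivity
    nlinarith
  obtain ⟨k, hk, hmin⟩ : ∃ k : ℕ, n ≤ ((D + 3) * k) ^ D * k ∧
      ∀ k' < k, ¬ n ≤ ((D + 3) * k') ^ D * k' :=
    ⟨Nat.find hex, Nat.find_spec hex, fun k' h => Nat.find_min hex h⟩
  have hk0 : 0 < k := by
    rcases Nat.eq_zero_or_pos k with h | h
    · subst h; simp at hk; omega
    · exact h
  refine ⟨D, k, hk0, hk, ?_⟩
  -- the shape of the bound
  have hE : (4 * (((D + 3) * k : ℕ) : ℝ)) ^ (D + 3) =
      4 ^ (D + 3) * ((D : ℝ) + 3) ^ 3 * (k : ℝ) ^ 2 * ((((D : ℝ) + 3) * k) ^ D * k) := by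
    push_cast
    rw [mul_pow, pow_add (((D : ℝ) + 3) * k) D 3]
    ring
  have h4 : (4 : ℝ) ^ (D + 3) ≤ Real.exp (2 * x + 8) := by
    have h2 : (2 : ℝ) ≤ Real.exp 1 := by linarith [Real.add_one_le_exp (1 : ℝ)]
    have h3 : (4 : ℝ) ≤ Real.exp 2 := by
      have : Real.exp 2 = Real.exp 1 * Real.exp 1 := by rw [← Real.exp_add]; norm_num
      rw [this]; nlinarith
    calc (4 : ℝ) ^ (D + 3) ≤ (Real.exp 2) ^ (D + 3) := pow_le_pow_left₀ (by norm_num) h3 _
      _ = Real.exp (((D + 3 : ℕ) : ℝ) * 2) := by rw [← Real.exp_nat_mul]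
      _ ≤ Real.exp (2 * x + 8) := by
        apply Real.exp_le_exp.2; push_cast; linarith
  have hD4 : (D : ℝ) + 3 ≤ Real.exp ((D : ℝ) + 1) := by
    have h1 := Real.add_one_le_exp (((D : ℝ) + 1) / 2)
    have h2 : Real.exp ((D : ℝ) + 1) = Real.exp (((D : ℝ) + 1) / 2) ^ 2 := by
      rw [sq, ← Real.exp_add]; congr 1; ring
    rw [h2]
    have h3 : (((D : ℝ) + 1) / 2 + 1) ^ 2 ≤ Real.exp (((D : ℝ) + 1) / 2) ^ 2 :=
      pow_le_pow_left₀ (by positivity) h1 2
    nlinarith
  have h5 : ((D : ℝ) + 3) ^ 3 ≤ Real.exp (3 * x + 6) := by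
    calc ((D : ℝ) + 3) ^ 3 ≤ (Real.exp ((D : ℝ) + 1)) ^ 3 := pow_le_pow_left₀ (by positivity) hD4 3
      _ = Real.exp (((3 : ℕ) : ℝ) * ((D : ℝ) + 1)) := by rw [← Real.exp_nat_mul]
      _ ≤ Real.exp (3 * x + 6) := by apply Real.exp_le_exp.2; push_cast; linarith
  have hnexp : (n : ℝ) = Real.exp (x ^ 2) := by rw [hxx, Real.exp_log hn0]
  have key : (k : ℝ) ^ 2 * ((((D : ℝ) + 3) * k) ^ D * k) ≤ n * Real.exp (3 * x + 4) := by
    rcases Nat.lt_or_ge k 2 with hk2 | hk2
    · have hk1 : k = 1 := by omega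
      subst hk1
      simp only [Nat.cast_one, one_pow, mul_one, one_mul]
      calc ((D : ℝ) + 3) ^ D ≤ (Real.exp ((D : ℝ) + 1)) ^ D := pow_le_pow_left₀ (by positivity) hD4 D
        _ = Real.exp ((D : ℝ) * ((D : ℝ) + 1)) := by rw [← Real.exp_nat_mul]
        _ ≤ Real.exp (x ^ 2 + (3 * x + 4)) := by
          apply Real.exp_le_exp.2; nlinarith
        _ = n * Real.exp (3 * x + 4) := by rw [Real.exp_add, hnexp]
    · obtain ⟨l, rfl⟩ : ∃ l, k = l + 1 := ⟨k - 1, by omega⟩
      have hl1 : 1 ≤ l := by omega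
      have hl : ((D + 3) * l) ^ D * l < n := not_le.1 (hmin l (Nat.lt_succ_self l))
      have hlr : (((D : ℝ) + 3) * l) ^ D * l ≤ n := by
        have : ((((D + 3) * l) ^ D * l : ℕ) : ℝ) ≤ n := by exact_mod_cast hl.le
        push_cast at this
        exact this
      have hl1r : (1 : ℝ) ≤ l := by exact_mod_cast hl1
      have hT : (((D : ℝ) + 3) * ((l + 1 : ℕ) : ℝ)) ^ D * ((l + 1 : ℕ) : ℝ) ≤
          n * Real.exp (x + 2) := by
        have h2l : ((l + 1 : ℕ) : ℝ) ≤ 2 * l := by push_cast; linarith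
        have h2 : (2 : ℝ) ≤ Real.exp 1 := by linarith [Real.add_one_le_exp (1 : ℝ)]
        calc (((D : ℝ) + 3) * ((l + 1 : ℕ) : ℝ)) ^ D * ((l + 1 : ℕ) : ℝ)
            ≤ (((D : ℝ) + 3) * (2 * l)) ^ D * (2 * l) := by gcongr
          _ = 2 ^ (D + 1) * ((((D : ℝ) + 3) * l) ^ D * l) := by
            rw [show ((D : ℝ) + 3) * (2 * l) = 2 * (((D : ℝ) + 3) * l) by ring, mul_pow]
            ring
          _ ≤ (Real.exp 1) ^ (D + 1) * n := by
            apply mul_le_mul _ hlr (by positivity) (by positivity)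
            exact pow_le_pow_left₀ (by norm_num) h2 _
          _ = n * Real.exp (((D + 1 : ℕ) : ℝ) * 1) := by rw [← Real.exp_nat_mul, mul_comm]
          _ ≤ n * Real.exp (x + 2) := by
            apply mul_le_mul_of_nonneg_left _ hn0.le
            apply Real.exp_le_exp.2; push_cast; linarith
      have hk3 : (l : ℝ) ≤ Real.exp x := by
        have h1 : (l : ℝ) ^ (D + 1) ≤ n := by
          refine le_trans ?_ hlr
          rw [pow_succ]
          apply mul_le_mul_of_nonneg_right _ (by positivity)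
          apply pow_le_pow_left₀ (by positivity)
          nlinarith
        have h2 : (((D + 1 : ℕ) : ℝ)) * Real.log l ≤ x ^ 2 := by
          rw [hxx, ← Real.log_pow]
          exact Real.log_le_log (by positivity) h1
        have h3 : Real.log l ≤ x := by
          by_contra hcon
          push Not at hcon
          have : x * x < (((D + 1 : ℕ) : ℝ)) * Real.log l := by
            push_cast
            nlinarith
          nlinarith
        calc (l : ℝ) = Real.exp (Real.log l) := (Real.exp_log (by linarith)).symm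
          _ ≤ Real.exp x := Real.exp_le_exp.2 h3
      have hk4 : (((l + 1 : ℕ) : ℝ)) ^ 2 ≤ Real.exp (2 * x + 2) := by
        have h2 : (2 : ℝ) ≤ Real.exp 1 := by linarith [Real.add_one_le_exp (1 : ℝ)]
        have h3 : ((l + 1 : ℕ) : ℝ) ≤ Real.exp (x + 1) := by
          rw [Real.exp_add]
          push_cast
          nlinarith [Real.exp_pos x]
        calc (((l + 1 : ℕ) : ℝ)) ^ 2 ≤ (Real.exp (x + 1)) ^ 2 :=
              pow_le_pow_left₀ (by positivity) h3 2
          _ = Real.exp (2 * x + 2) := by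
            rw [sq, ← Real.exp_add]; congr 1; ring
      calc (((l + 1 : ℕ) : ℝ)) ^ 2 *
            ((((D : ℝ) + 3) * ((l + 1 : ℕ) : ℝ)) ^ D * ((l + 1 : ℕ) : ℝ))
          ≤ Real.exp (2 * x + 2) * (n * Real.exp (x + 2)) :=
            mul_le_mul hk4 hT (by positivity) (by positivity)
        _ = n * Real.exp (3 * x + 4) := by
          rw [mul_left_comm, ← Real.exp_add]; congr 2; ring
  rw [hE]
  calc 4 ^ (D + 3) * ((D : ℝ) + 3) ^ 3 * (k : ℝ) ^ 2 * ((((D : ℝ) + 3) * k) ^ D * k)
      = 4 ^ (D + 3) * (((D : ℝ) + 3) ^ 3 * ((k : ℝ) ^ 2 * ((((D : ℝ) + 3) * k) ^ D * k))) := by ring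
    _ ≤ Real.exp (2 * x + 8) * (Real.exp (3 * x + 6) * (n * Real.exp (3 * x + 4))) := by
      apply mul_le_mul h4 _ (by positivity) (by positivity)
      exact mul_le_mul h5 key (by positivity) (by positivity)
    _ = n * Real.exp (8 * x + 18) := by
      rw [mul_left_comm (Real.exp (3 * x + 6)), mul_left_comm, ← Real.exp_add, ← Real.exp_add]
      congr 2; ring
    _ ≤ n * Real.exp (30 * x) := by
      apply mul_le_mul_of_nonneg_left _ hn0.le
      apply Real.exp_le_exp.2; linarith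

/-- upper bound: small configurations exist for every `n` -/
theorem upper (n : ℕ) : ∃ p : Fin n → EuclideanSpace ℝ (Fin 2), GenSep p ∧
    ∀ i j, dist (p i) (p j) ≤ n * Real.exp (30 * √(Real.log n)) := by
  classical
  rcases Nat.lt_or_ge n 2 with hn | hn
  · have hsub : ∀ i j : Fin n, i = j := fun i j => Fin.ext (by omega)
    refine ⟨fun _ => 0, ⟨fun i j k h => absurd (hsub i j) h, fun i j k l h => absurd (hsub i j) h,
      fun i j h => absurd (hsub i j) h, fun i j k l h => absurd (hsub i j) h⟩, fun i j => ?_⟩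
    rw [dist_self]
    positivity
  · obtain ⟨D, k, hk, hnk, hbd⟩ := numeric n hn
    obtain ⟨r, hr⟩ := exists_sphere D k hk
    set S := Finset.univ.filter
      (fun a : Fin (D + 3) → Fin ((D + 3) * k) => ∑ i, (a i : ℕ) ^ 2 = r) with hS
    have hSr : ∀ a ∈ S, ∑ i, (a i : ℕ) ^ 2 = r := by
      intro a ha
      exact (Finset.mem_filter.1 ha).2
    obtain ⟨p, hp1, hp2, hp3, hp4, hp5⟩ := Pool.Agent.Helper532.Separated.config S r hSr
    have hcard : n ≤ S.card := hnk.trans hr
    let e : Fin n → (Fin (D + 3) → Fin ((D + 3) * k)) :=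
      fun i => (S.equivFin.symm (Fin.castLE hcard i) : _)
    have heS : ∀ i, e i ∈ S := fun i => (S.equivFin.symm (Fin.castLE hcard i)).2
    have hei : ∀ i j, i ≠ j → e i ≠ e j := by
      intro i j hij h'
      apply hij
      have h1 := S.equivFin.symm.injective (Subtype.ext h')
      exact Fin.castLE_injective hcard h1
    refine ⟨fun i => p (e i), ⟨?_, ?_, ?_, ?_⟩, ?_⟩
    · exact fun i j k h1 h2 h3 => hp1 _ (heS i) _ (heS j) _ (heS k) (hei _ _ h1) (hei _ _ h2)
        (hei _ _ h3)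
    · exact fun i j k l h1 h2 h3 h4 h5 h6 => hp2 _ (heS i) _ (heS j) _ (heS k) _ (heS l)
        (hei _ _ h1) (hei _ _ h2) (hei _ _ h3) (hei _ _ h4) (hei _ _ h5) (hei _ _ h6)
    · exact fun i j h1 => hp3 _ (heS i) _ (heS j) (hei _ _ h1)
    · exact fun i j k l _ _ h3 => hp4 _ (heS i) _ (heS j) _ (heS k) _ (heS l) h3
    · exact fun i j => (hp5 _ (heS i) _ (heS j)).trans hbd

/-- lower bound: the diameter is at least linear -/
theorem lower (n : ℕ) (p : Fin (n + 1) → EuclideanSpace ℝ (Fin 2)) (hp : GenSep p) :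
    ∃ i j, (n : ℝ) / 3 ≤ dist (p i) (p j) := by
  classical
  obtain ⟨m, _, hm⟩ := Finset.exists_max_image Finset.univ (fun j => dist (p 0) (p j))
    ⟨(0 : Fin (n + 1)), Finset.mem_univ _⟩
  refine ⟨0, m, ?_⟩
  have h1 : (Finset.univ.erase (0 : Fin (n + 1))).card ≤ 3 *
      ((Finset.univ.erase (0 : Fin (n + 1))).image fun j => ⌊dist (p 0) (p j)⌋₊).card := by
    apply Finset.card_le_mul_card_image
    intro a _
    by_contra hcon
    push Not at hcon
    obtain ⟨t, ht, ht4⟩ := Finset.exists_subset_card_eq (show 4 ≤ _ from hcon)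
    let f := t.orderEmbOfFin ht4
    have hf : ∀ i, f i ≠ 0 ∧ ⌊dist (p 0) (p (f i))⌋₊ = a := by
      intro i
      have := ht (t.orderEmbOfFin_mem ht4 i)
      rw [Finset.mem_filter, Finset.mem_erase] at this
      exact ⟨this.1.1, this.2⟩
    have heq : ∀ i j, dist (p 0) (p (f i)) = dist (p 0) (p (f j)) := by
      intro i j
      by_contra hne
      have h2 := hp.gap 0 (f i) 0 (f j) (hf i).1.symm (hf j).1.symm hne
      have h3 := Nat.floor_le (dist_nonneg (x := p 0) (y := p (f i)))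
      have h4 := Nat.lt_floor_add_one (dist (p 0) (p (f i)))
      have h5 := Nat.floor_le (dist_nonneg (x := p 0) (y := p (f j)))
      have h6 := Nat.lt_floor_add_one (dist (p 0) (p (f j)))
      rw [(hf i).2] at h3 h4
      rw [(hf j).2] at h5 h6
      rcases le_abs.1 h2 with h | h <;> linarith
    have hinj : ∀ i j, i ≠ j → f i ≠ f j := fun i j h h' => h (f.injective h')
    refine hp.nonconcyclic (f 0) (f 1) (f 2) (f 3) (hinj _ _ (by decide)) (hinj _ _ (by decide))
      (hinj _ _ (by decide)) (hinj _ _ (by decide)) (hinj _ _ (by decide)) (hinj _ _ (by decide))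
      ⟨p 0, dist (p 0) (p (f 0)), ?_⟩
    intro q hq
    simp only [Set.mem_insert_iff, Set.mem_singleton_iff] at hq
    rcases hq with rfl | rfl | rfl | rfl
    · exact dist_comm _ _
    · rw [dist_comm]; exact heq _ _
    · rw [dist_comm]; exact heq _ _
    · rw [dist_comm]; exact heq _ _
  have h2 : ((Finset.univ.erase (0 : Fin (n + 1))).image fun j => ⌊dist (p 0) (p j)⌋₊).card ≤
      ⌊dist (p 0) (p m)⌋₊ := by
    have h3 : ((Finset.univ.erase (0 : Fin (n + 1))).image fun j => ⌊dist (p 0) (p j)⌋₊) ⊆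
        Finset.Icc 1 ⌊dist (p 0) (p m)⌋₊ := by
      intro a ha
      rw [Finset.mem_image] at ha
      obtain ⟨j, hj, rfl⟩ := ha
      rw [Finset.mem_erase] at hj
      rw [Finset.mem_Icc]
      exact ⟨Nat.le_floor (by simpa using hp.one_le 0 j hj.1.symm), Nat.floor_le_floor (hm j hj.2)⟩
    have h4 := Finset.card_le_card h3
    simpa using h4
  have h3 : (Finset.univ.erase (0 : Fin (n + 1))).card = n := by simp
  rw [h3] at h1
  have h4 : n ≤ 3 * ⌊dist (p 0) (p m)⌋₊ := h1.trans (Nat.mul_le_mul_left _ h2)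
  have h5 := Nat.floor_le (dist_nonneg (x := p 0) (y := p m))
  have h6 : (n : ℝ) ≤ 3 * (⌊dist (p 0) (p m)⌋₊ : ℝ) := by exact_mod_cast h4
  linarith

/-- the bound `n ^ (1 + c)` fails for every `c > 0` and all large `n` -/
theorem fails (c : ℝ) (hc : 0 < c) : ∃ N : ℕ, ∀ n ≥ N,
    ∃ p : Fin n → EuclideanSpace ℝ (Fin 2), GenSep p ∧
      ∀ i j, dist (p i) (p j) ≤ (n : ℝ) ^ (1 + c) := by
  obtain ⟨N, hN⟩ := exists_nat_ge (Real.exp ((30 / c) ^ 2))
  refine ⟨N, fun n hn => ?_⟩
  obtain ⟨p, hp, hd⟩ := upper n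
  refine ⟨p, hp, fun i j => (hd i j).trans ?_⟩
  have h1 : Real.exp ((30 / c) ^ 2) ≤ n := hN.trans (by exact_mod_cast hn)
  have hn0 : (0 : ℝ) < n := (Real.exp_pos _).trans_le h1
  have h2 : (30 / c) ^ 2 ≤ Real.log n := by
    rw [← Real.log_exp ((30 / c) ^ 2)]
    exact Real.log_le_log (Real.exp_pos _) h1
  have h3 : 30 / c ≤ √(Real.log n) := Real.le_sqrt_of_sq_le h2
  have h4 : 30 ≤ c * √(Real.log n) := by
    rw [div_le_iff₀ hc] at h3
    linarith
  have h5 : √(Real.log n) * √(Real.log n) = Real.log n :=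
    Real.mul_self_sqrt (le_trans (by positivity) h2)
  rw [Real.rpow_add hn0, Real.rpow_one, Real.rpow_def_of_pos hn0]
  apply mul_le_mul_of_nonneg_left _ hn0.le
  apply Real.exp_le_exp.2
  nlinarith [Real.sqrt_nonneg (Real.log n)]

/-- For every `n` there is a separated configuration of `n` points of the plane in general position
whose diameter is at most `n · exp (30 √(log n))`; in particular, for every `c > 0` and all large
`n` there is one of diameter at most `n ^ (1 + c)`. Every separated configuration of `n + 1` points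
in general position has diameter at least `n / 3`. -/
theorem result :
    (∀ n : ℕ, ∃ p : Fin n → EuclideanSpace ℝ (Fin 2), GenSep p ∧
      ∀ i j, dist (p i) (p j) ≤ n * Real.exp (30 * √(Real.log n))) ∧
    (∀ c : ℝ, 0 < c → ∃ N : ℕ, ∀ n ≥ N, ∃ p : Fin n → EuclideanSpace ℝ (Fin 2), GenSep p ∧
      ∀ i j, dist (p i) (p j) ≤ (n : ℝ) ^ (1 + c)) ∧
    (∀ (n : ℕ) (p : Fin (n + 1) → EuclideanSpace ℝ (Fin 2)), GenSep p →
      ∃ i j, (n : ℝ) / 3 ≤ dist (p i) (p j)) :=
  ⟨upper, fails, lower⟩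

end Pool.Agent.Results.MP_b71966_co.BehrendType
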